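import Pool.Agent.TH678.GC.Final

/-!
# `M[1] ≠ W[1]` relative to generic oracles

For every oracle `E` and all oracles `A` outside a set of the first category, the following holds
relative to `A` and `E`. The `k`-step halting problem of nondeterministic Turing machines `x` with
oracle, whose transitions append at most `(e + 2) (log |x| + 1)` bits to the oracle tape, so that all
questions have only `O(k log |x|)` bits (without oracle, the `k`-step halting problem is complete for
`W[1]`), has no compression: no algorithm with running time `f k * poly |x|` produces a string of
`h k * |x| / (log |x|) ^ 2` bits which determines the answer. Here the functions of `k` are arbitrary,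
and nothing is assumed on how the answer is obtained from the string.

The problems in the class `M[1]`, even in a wide form, do have compressions of this kind relative to
every oracle, even to `(h k * log |x|) ^ c` bits. So `W[1]` is not contained in `M[1]` relative to `A`
and `E`.
-/

set_option autoImplicit false

namespace Pool.Agent.Results.MP_ddf912_lc.GenericOracles

open Pool.Agent.H620R2.Gauge Pool.Agent.TH678.RS Pool.Agent.TH678.SQ Pool.Agent.TH678.GC

theorem result :
    (∀ (A : Oracle) (Q : Set (List Bool × ℕ)), InM1 A Q → Comp A Q) ∧
    ∀ E : Oracle, ∀ᶠ A in residual Oracle, ∀ e : ℕ,
      ¬ Comp (join A E) (kHaltS e (join A E)) ∧ ¬ InM1 (join A E) (kHaltS e (join A E)) := by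
  refine ⟨fun _ _ h => m1_comp h, fun E => ?_⟩
  filter_upwards [main E] with A hA e
  exact ⟨hA e, fun h => hA e (m1_comp h)⟩

end Pool.Agent.Results.MP_ddf912_lc.GenericOracles
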