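import Pool.Agent.TH678.RS.Final

/-!
# A relativized world with `M[1] = FPT` and `W[1] ≠ FPT`

Let `F` be a countable set of functions that tend to infinity, for example the set of all computable
ones.  There is an oracle `A` such that

* `NP` is in time `n ^ O(α n)` relative to `A`, for every `α` in `F`;
* the class `M[1]` relative to `A`, even in a wide form, is `FPT`;
* the `k`-step halting problem of nondeterministic Turing machines with oracle `A` (without oracle,
  this problem is complete for `W[1]`) is not in nonuniform `FPT`, and its complement is not in
  nonuniform `para-NP`, relative to `A`;
* for fixed `k`, this problem is not decided in time `O(n ^ c)` for any `c ≤ k - 2`, and neither is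
  its complement in nondeterministic time `O(n ^ c)`.

So a proof of `M[1] = W[1]`, that is of the implication from the failure of the exponential time
hypothesis to `W[1] = FPT`, does not relativize in this sense, not even if the hypothesis is
strengthened to `NP` in time `n ^ α(n)` for all computable `α` that tend to infinity.
-/

set_option autoImplicit false

namespace Pool.Agent.Results.MP_ddf912_lc.RelativizedSeparation

open Pool.Agent.H620R2.Gauge Pool.Agent.TH678.RS Filter

theorem result (F : Set (ℕ → ℕ)) (hF : F.Countable) (h : ∀ α ∈ F, Tendsto α atTop atTop) :
    ∃ A : Oracle, Separated F A :=
  main hF h

end Pool.Agent.Results.MP_ddf912_lc.RelativizedSeparation
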