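import Pool.Agent.TH678.SQ.Final

/-!
# A relativized world with `M[1] = FPT` and `W[1] ≠ FPT`, with short questions

There is an oracle `A` such that

* `NP` is in time `2 ^ (2 ^ O(√(log n)))` relative to `A`, where the exponent is `n ^ o(1)`; so the
  exponential time hypothesis fails in a strong sense;
* the class `M[1]` relative to `A`, even in a wide form, is `FPT`;
* the `k`-step halting problem of nondeterministic Turing machines `x` with oracle `A`, whose
  transitions append at most `4 (log |x| + 1)` bits to the oracle tape, is not in nonuniform `FPT`,
  and its complement is not in nonuniform `para-NP`, relative to `A`. (Without oracle, the `k`-step
  halting problem is complete for `W[1]`; here all questions have only `O(k log |x|)` bits);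
* if the transitions append at most `(e + 2) (log |x| + 1)` bits then, for fixed `k`, this problem is
  not decided in time `O(n ^ c)` for any `c ≤ k - 2 - ⌊k / e⌋`, and neither is its complement in
  nondeterministic time `O(n ^ c)`.

The point is that the questions are as short as the witnesses: in the class `M[1]`, whose instances
are reduced to instances of length `(h(k) log |x|) ^ c` of a problem in `NP`, all these questions can
be asked too (every string of this length can be a question), and yet the `k`-step halting problem is
not in this class.
-/

set_option autoImplicit false

namespace Pool.Agent.Results.MP_ddf912_lc.ShortQuestions

open Pool.Agent.H620R2.Gauge Pool.Agent.TH678.SQ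

theorem result : ∃ A : Oracle, SeparatedS A := main

end Pool.Agent.Results.MP_ddf912_lc.ShortQuestions
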