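import Mathlib
import Pool.Agent.H679R2.M1.Defs
import Pool.Agent.TH706.NE.Circ
import Pool.Agent.TH706.NE.Defs
import Pool.Agent.TH706.NE.Main

/-!
# If `M[1] = W[1]` then unsatisfiable 3-CNF formulas have short proofs

`M[1]` is the closure under fpt-reductions of the problems `p-log-SAT(Γ_{1,d})`: satisfiability of
formulas of size `m` with at most `d` literals per clause, parameterized by `⌈v / log m⌉`, where `v`
is the number of variables.  An fpt-reduction of `p-CLIQUE` to this problem maps a graph with `n`
vertices and a number `k` to a formula with `v ≤ g k * log m` variables, where `m ≤ f k * n ^ c`.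

We consider nonuniform fpt-reductions of `p-CLIQUE` to `M[1]`, computed by circuits of NAND gates of
size `f k * n ^ c`.  They need not be many-one reductions: they may ask `g k * n ^ η` questions, one
after the other, where `η < 2` (a graph with `n` vertices has about `n ^ 2 / 2` bits).

Theorem.  If there are such reductions then, for each `ε > 0` and all large `n`, the unsatisfiable
formulas with `n` variables and at most three literals per clause are accepted by a nondeterministic
circuit with at most `2 ^ (ε n)` gates and with at most `n ^ (d + 4) * 2 ^ (η ε n)`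
nondeterministic bits.

For `η = 0` the number of nondeterministic bits is at most `n ^ (d + 4)`.  So if `M[1] = W[1]` then
unsatisfiable 3-CNF formulas have proofs of polynomial length that are checked by circuits of size
`2 ^ (ε n)`, for each `ε > 0`; in particular the nondeterministic exponential time hypothesis, in
its nonuniform form, is false.
-/

namespace Pool.Agent.Results.MP_ddf912_lc.SubexpRefutations

open Filter Pool.Agent.TH706.NE
open Pool.Agent.H679R2.M1 (Clause Sat)

theorem result (d c : ℕ) (f g : ℕ → ℕ) (η : ℝ) (hη0 : 0 ≤ η) (hη : η < 2)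
    -- nonuniform Turing reductions of the clique problem to `p-log-SAT(Γ_{1,d})`
    (h : ∀ k n : ℕ, 1 ≤ n → ∃ (v q : ℕ) (R : TuringRed n v d q),
      v ≤ g k * (Nat.log 2 (f k * n ^ c) + 1) ∧ (q : ℝ) ≤ g k * (n : ℝ) ^ η ∧
      R.Size (f k * n ^ c) ∧ R.Decides k) (ε : ℝ) (hε : 0 < ε) :
    -- nondeterministic circuits for the unsatisfiable 3-CNF formulas with `n` variables
    ∀ᶠ n : ℕ in atTop, ∃ w s : ℕ, (s : ℝ) ≤ 2 ^ (ε * n) ∧
      (w : ℝ) ≤ (n : ℝ) ^ (d + 4) * 2 ^ (η * (ε * n)) ∧
      NComp (fun φ : Clause n 3 → Bool => ¬ Sat φ) w s :=
  main d c f g η hη0 hη h ε hε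

end Pool.Agent.Results.MP_ddf912_lc.SubexpRefutations
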